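import Mathlib

/-!
# A common hypercyclic vector along the Takagi graph (MP_c0f49b_an)
-/

set_option autoImplicit false

namespace Pool.Agent.Results.MP_c0f49b_an.TakagiCommon

open Filter Topology Set
open scoped ZeroAtInfty

variable {𝕜 : Type*} [RCLike 𝕜]

/-! ### The space `c₀` and the backward shift -/

lemma cocompact_nat : cocompact ℕ = atTop := by
  rw [cocompact_eq_cofinite, Nat.cofinite_eq_atTop]

/-- an element of `c₀` from a function tending to `0` -/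
def mk0 (f : ℕ → 𝕜) (h : Tendsto f atTop (𝓝 0)) : C₀(ℕ, 𝕜) :=
  ⟨⟨f, continuous_of_discreteTopology⟩, by rw [cocompact_nat]; exact h⟩

@[simp] lemma mk0_apply (f : ℕ → 𝕜) (h : Tendsto f atTop (𝓝 0)) (k : ℕ) : mk0 f h k = f k := rfl

lemma tendsto_zero (u : C₀(ℕ, 𝕜)) : Tendsto (fun k => u k) atTop (𝓝 0) := by
  have := u.zero_at_infty'
  rw [cocompact_nat] at this
  exact this

lemma norm_le_iff {u : C₀(ℕ, 𝕜)} {C : ℝ} (hC : 0 ≤ C) : ‖u‖ ≤ C ↔ ∀ k, ‖u k‖ ≤ C := by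
  rw [← ZeroAtInftyContinuousMap.norm_toBCF_eq_norm]
  exact BoundedContinuousFunction.norm_le hC

lemma apply_le (u : C₀(ℕ, 𝕜)) (k : ℕ) : ‖u k‖ ≤ ‖u‖ := (norm_le_iff (norm_nonneg u)).mp le_rfl k

/-- The unweighted backward shift `B (x₀, x₁, x₂, …) = (x₁, x₂, …)` on `c₀`. -/
noncomputable def B (𝕜 : Type*) [RCLike 𝕜] : C₀(ℕ, 𝕜) →L[𝕜] C₀(ℕ, 𝕜) :=
  LinearMap.mkContinuous
    { toFun := fun u => mk0 (fun k => u (k + 1)) ((tendsto_zero u).comp (tendsto_add_atTop_nat 1))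
      map_add' := fun u v => by ext k; rfl
      map_smul' := fun c u => by ext k; rfl } 1 (fun u => by
        rw [one_mul, norm_le_iff (norm_nonneg _)]
        intro k
        exact apply_le u (k + 1))

lemma B_apply (u : C₀(ℕ, 𝕜)) (k : ℕ) : B 𝕜 u k = u (k + 1) := rfl

lemma B_pow_apply (n : ℕ) (u : C₀(ℕ, 𝕜)) (k : ℕ) : ((B 𝕜) ^ n) u k = u (k + n) := by
  induction n generalizing k with
  | zero => simp
  | succ n ih =>
    rw [pow_succ', mul_apply_eq_comp, B_apply, ih]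
    congr 1
    ring

/-- truncation -/
def trunc (N : ℕ) (u : C₀(ℕ, 𝕜)) : C₀(ℕ, 𝕜) :=
  mk0 (fun k => if k < N then u k else 0) (by
    apply tendsto_const_nhds.congr'
    filter_upwards [eventually_ge_atTop N] with k hk
    rw [if_neg (not_lt.mpr hk)])

lemma exists_trunc (u : C₀(ℕ, 𝕜)) {ε : ℝ} (hε : 0 < ε) :
    ∃ N, ∀ n ≥ N, ‖trunc n u - u‖ ≤ ε := by
  have h := tendsto_zero u
  rw [Metric.tendsto_atTop] at h
  obtain ⟨N, hN⟩ := h ε hε
  refine ⟨N, fun n hn => ?_⟩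
  rw [norm_le_iff hε.le]
  intro k
  rw [ZeroAtInftyContinuousMap.sub_apply, trunc, mk0_apply]
  split_ifs with h1
  · rw [sub_self, norm_zero]; exact hε.le
  · have := hN k (by omega)
    rw [dist_zero_right] at this
    rw [zero_sub, norm_neg]
    exact this.le

/-- the coordinate embedding of `𝕜 ^ N` -/
noncomputable def emb (N : ℕ) : (Fin N → 𝕜) →ₗ[𝕜] C₀(ℕ, 𝕜) where
  toFun a := mk0 (fun k => if h : k < N then a ⟨k, h⟩ else 0) (by
    apply tendsto_const_nhds.congr'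
    filter_upwards [eventually_ge_atTop N] with k hk
    rw [dif_neg (not_lt.mpr hk)])
  map_add' a b := by
    ext k
    rw [ZeroAtInftyContinuousMap.add_apply, mk0_apply, mk0_apply, mk0_apply]
    split_ifs <;> simp
  map_smul' c a := by
    ext k
    rw [RingHom.id_apply, ZeroAtInftyContinuousMap.smul_apply, mk0_apply, mk0_apply]
    split_ifs <;> simp

instance : TopologicalSpace.SeparableSpace C₀(ℕ, 𝕜) := by
  rw [← TopologicalSpace.isSeparable_univ_iff]
  have h1 : TopologicalSpace.IsSeparable (⋃ N : ℕ, range (emb (𝕜 := 𝕜) N)) := by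
    apply TopologicalSpace.IsSeparable.iUnion
    intro N
    have hc : Continuous (emb (𝕜 := 𝕜) N) := LinearMap.continuous_of_finiteDimensional _
    exact TopologicalSpace.isSeparable_range hc
  refine h1.closure.mono ?_
  intro u _
  rw [Metric.mem_closure_iff]
  intro ε hε
  obtain ⟨N, hN⟩ := exists_trunc u (half_pos hε)
  refine ⟨trunc N u, mem_iUnion.mpr ⟨N, fun k => u k, ?_⟩, ?_⟩
  · ext k
    simp [emb, trunc]
  · rw [dist_comm, dist_eq_norm]
    linarith [hN N le_rfl]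

/-! ### The Takagi function -/

/-- The Takagi function `T(t) = ∑ 2 ^ (-n) dist (2 ^ n t, ℤ)`. -/
noncomputable def takagi (t : ℝ) : ℝ :=
  ∑' n : ℕ, (1 / 2 : ℝ) ^ n * Metric.infDist (2 ^ n * t) (range ((↑) : ℤ → ℝ))

lemma infDist_le_half (x : ℝ) : Metric.infDist x (range ((↑) : ℤ → ℝ)) ≤ 1 / 2 := by
  refine (Metric.infDist_le_dist_of_mem (mem_range_self (round x))).trans ?_
  rw [Real.dist_eq]
  exact abs_sub_round x

lemma takagi_term_nonneg (t : ℝ) (n : ℕ) :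
    0 ≤ (1 / 2 : ℝ) ^ n * Metric.infDist (2 ^ n * t) (range ((↑) : ℤ → ℝ)) :=
  mul_nonneg (by positivity) Metric.infDist_nonneg

lemma takagi_nonneg (t : ℝ) : 0 ≤ takagi t := tsum_nonneg (takagi_term_nonneg t)

lemma takagi_summable (t : ℝ) :
    Summable fun n : ℕ => (1 / 2 : ℝ) ^ n * Metric.infDist (2 ^ n * t) (range ((↑) : ℤ → ℝ)) := by
  refine Summable.of_nonneg_of_le (takagi_term_nonneg t) (fun n => ?_)
    (summable_geometric_two.mul_right (1 / 2))
  exact mul_le_mul_of_nonneg_left (infDist_le_half _) (by positivity)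

lemma infDist_sub (x y : ℝ) : |Metric.infDist x (range ((↑) : ℤ → ℝ)) -
    Metric.infDist y (range ((↑) : ℤ → ℝ))| ≤ |x - y| := by
  rw [abs_sub_le_iff]
  have h1 := Metric.infDist_le_infDist_add_dist (s := range ((↑) : ℤ → ℝ)) (x := x) (y := y)
  have h2 := Metric.infDist_le_infDist_add_dist (s := range ((↑) : ℤ → ℝ)) (x := y) (y := x)
  rw [dist_comm] at h2
  rw [Real.dist_eq] at h1 h2
  constructor <;> linarith

lemma takagi_modulus (s t : ℝ) (m : ℕ) :
    |takagi s - takagi t| ≤ m * |s - t| + (1 / 2) ^ m := by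
  set d : ℝ → ℝ := fun x => Metric.infDist x (range ((↑) : ℤ → ℝ)) with hd
  have hsum : Summable fun n : ℕ => (1 / 2 : ℝ) ^ n * d (2 ^ n * s) - (1 / 2 : ℝ) ^ n * d (2 ^ n * t) :=
    (takagi_summable s).sub (takagi_summable t)
  have h1 : takagi s - takagi t =
      ∑' n : ℕ, ((1 / 2 : ℝ) ^ n * d (2 ^ n * s) - (1 / 2 : ℝ) ^ n * d (2 ^ n * t)) :=
    ((takagi_summable s).tsum_sub (takagi_summable t)).symm
  rw [h1, ← hsum.sum_add_tsum_nat_add m]
  refine (abs_add_le _ _).trans (add_le_add ?_ ?_)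
  · refine (Finset.abs_sum_le_sum_abs _ _).trans ?_
    have h2 : ∀ n ∈ Finset.range m,
        |(1 / 2 : ℝ) ^ n * d (2 ^ n * s) - (1 / 2 : ℝ) ^ n * d (2 ^ n * t)| ≤ |s - t| := by
      intro n _
      rw [← mul_sub, abs_mul, abs_of_pos (by positivity : (0 : ℝ) < (1 / 2) ^ n)]
      have h3 := infDist_sub (2 ^ n * s) (2 ^ n * t)
      rw [← mul_sub, abs_mul, abs_of_pos (by positivity : (0 : ℝ) < 2 ^ n)] at h3
      calc (1 / 2 : ℝ) ^ n * |d (2 ^ n * s) - d (2 ^ n * t)|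
          ≤ (1 / 2 : ℝ) ^ n * (2 ^ n * |s - t|) := mul_le_mul_of_nonneg_left h3 (by positivity)
        _ = |s - t| := by rw [← mul_assoc, ← mul_pow]; norm_num
    refine (Finset.sum_le_sum h2).trans ?_
    rw [Finset.sum_const, Finset.card_range, nsmul_eq_mul]
  · have h4 : ∀ n : ℕ, ‖(1 / 2 : ℝ) ^ (n + m) * d (2 ^ (n + m) * s) -
        (1 / 2 : ℝ) ^ (n + m) * d (2 ^ (n + m) * t)‖ ≤ (1 / 2) ^ m * (1 / 2) * (1 / 2) ^ n := by
      intro n
      rw [← mul_sub, norm_mul, Real.norm_eq_abs, Real.norm_eq_abs,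
        abs_of_pos (by positivity : (0 : ℝ) < (1 / 2) ^ (n + m))]
      have h5 : |d (2 ^ (n + m) * s) - d (2 ^ (n + m) * t)| ≤ 1 / 2 := by
        have e1 := infDist_le_half (2 ^ (n + m) * s)
        have e2 := infDist_le_half (2 ^ (n + m) * t)
        have e3 : 0 ≤ d (2 ^ (n + m) * s) := Metric.infDist_nonneg
        have e4 : 0 ≤ d (2 ^ (n + m) * t) := Metric.infDist_nonneg
        rw [abs_sub_le_iff]
        constructor
        · exact (sub_le_self _ e4).trans e1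
        · exact (sub_le_self _ e3).trans e2
      calc (1 / 2 : ℝ) ^ (n + m) * |d (2 ^ (n + m) * s) - d (2 ^ (n + m) * t)|
          ≤ (1 / 2 : ℝ) ^ (n + m) * (1 / 2) := mul_le_mul_of_nonneg_left h5 (by positivity)
        _ = (1 / 2) ^ m * (1 / 2) * (1 / 2) ^ n := by rw [pow_add]; ring
    have h6 : HasSum (fun n : ℕ => (1 / 2 : ℝ) ^ m * (1 / 2) * (1 / 2) ^ n)
        ((1 / 2 : ℝ) ^ m * (1 / 2) * 2) := hasSum_geometric_two.mul_left _
    have h7 := tsum_of_norm_bounded h6 h4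
    rw [Real.norm_eq_abs] at h7
    refine h7.trans (le_of_eq ?_)
    ring

lemma takagi_continuous : Continuous takagi := by
  rw [Metric.continuous_iff]
  intro b ε hε
  obtain ⟨m, hm⟩ := exists_pow_lt_of_lt_one (half_pos hε) (show (1 / 2 : ℝ) < 1 by norm_num)
  refine ⟨ε / (2 * (m + 1)), by positivity, fun a ha => ?_⟩
  rw [Real.dist_eq] at ha ⊢
  refine (takagi_modulus a b m).trans_lt ?_
  have h1 : m * |a - b| ≤ ε / 2 := by
    have h2 : (m : ℝ) * |a - b| ≤ (m + 1) * (ε / (2 * (m + 1))) := by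
      have := abs_nonneg (a - b)
      nlinarith [(Nat.cast_nonneg m : (0 : ℝ) ≤ m)]
    refine h2.trans (le_of_eq ?_)
    field_simp
  linarith

/-! ### The partition of the parameter interval -/

/-- the step sizes -/
noncomputable def step (r i : ℕ) : ℝ := (1 / 2) ^ r * (1 / ((i + 1) * (Nat.log 2 (i + 1) + 1)))

/-- the partition points -/
noncomputable def pt (r i : ℕ) : ℝ := ∑ l ∈ Finset.range i, step r l

lemma step_pos (r i : ℕ) : 0 < step r i := by unfold step; positivity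

lemma pt_zero (r : ℕ) : pt r 0 = 0 := by simp [pt]
lemma pt_succ (r i : ℕ) : pt r (i + 1) = pt r i + step r i := Finset.sum_range_succ _ _

lemma pt_mono (r : ℕ) : Monotone (pt r) :=
  monotone_nat_of_le_succ fun i => by rw [pt_succ]; linarith [step_pos r i]

lemma not_summable_aux :
    ¬ Summable fun n : ℕ => (1 / ((n : ℝ) * (Nat.log 2 n + 1))) := by
  rw [← summable_condensed_iff_of_nonneg]
  · intro h
    have h1 : (fun k : ℕ => (2 : ℝ) ^ k * (1 / (((2 ^ k : ℕ) : ℝ) * (Nat.log 2 (2 ^ k) + 1)))) =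
        fun k : ℕ => 1 / ((k : ℝ) + 1) := by
      funext k
      rw [Nat.log_pow (by norm_num)]
      push_cast
      field_simp
    rw [h1] at h
    have h2 : Summable fun k : ℕ => 1 / (((k + 1 : ℕ)) : ℝ) := by
      convert h using 2 with k
      push_cast
      rfl
    rw [summable_nat_add_iff (f := fun k : ℕ => 1 / (k : ℝ)) 1] at h2
    exact Real.not_summable_one_div_natCast h2
  · intro n; positivity
  · intro m n hm hmn
    have h1 : (0 : ℝ) < m := by exact_mod_cast hm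
    have h2 : (m : ℝ) ≤ n := by exact_mod_cast hmn
    have h3 : (Nat.log 2 m : ℝ) ≤ Nat.log 2 n := by exact_mod_cast Nat.log_mono_right hmn
    apply one_div_le_one_div_of_le (by positivity)
    gcongr

lemma pt_tendsto (r : ℕ) : Tendsto (pt r) atTop atTop := by
  have h1 : ¬ Summable (step r) := by
    intro h
    have h2 : Summable fun i : ℕ => 1 / (((i + 1 : ℕ) : ℝ) * (Nat.log 2 (i + 1) + 1)) := by
      have h3 := h.mul_left ((2 : ℝ) ^ r)
      have h4 : (fun i : ℕ => (2 : ℝ) ^ r * step r i) =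
          fun i : ℕ => 1 / (((i + 1 : ℕ) : ℝ) * (Nat.log 2 (i + 1) + 1)) := by
        funext i
        unfold step
        rw [← mul_assoc, ← mul_pow]
        push_cast
        norm_num
      rw [h4] at h3
      exact h3
    rw [summable_nat_add_iff (f := fun n : ℕ => (1 / ((n : ℝ) * (Nat.log 2 n + 1)))) 1] at h2
    exact not_summable_aux h2
  exact (not_summable_iff_tendsto_nat_atTop_of_nonneg (fun i => (step_pos r i).le)).mp h1

/-- the bound for the oscillation on the cell `i` -/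
noncomputable def osc (r i : ℕ) : ℝ := (1 / 2) ^ r * (r + 3) / (i + 1)

lemma osc_anti (r : ℕ) {i j : ℕ} (h : i ≤ j) : osc r j ≤ osc r i := by
  unfold osc
  have : (i : ℝ) ≤ j := by exact_mod_cast h
  gcongr

lemma osc_mul (r i : ℕ) : (i + 1) * osc r i = (1 / 2) ^ r * (r + 3) := by
  unfold osc
  field_simp

/-- the functions that we can handle -/
structure Good (φ : ℝ → ℝ) (a : ℝ) : Prop where
  cont : Continuous φ
  lower : ∀ t, 0 ≤ t → a ≤ φ t
  modulus : ∀ (s t : ℝ) (m : ℕ), |φ s - φ t| ≤ (m + 1) * |s - t| + (1 / 2) ^ m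

lemma Good.osc {φ : ℝ → ℝ} {a : ℝ} (h : Good φ a) {r i : ℕ} {s t : ℝ}
    (hs : s ∈ Icc (pt r i) (pt r (i + 1))) (ht : t ∈ Icc (pt r i) (pt r (i + 1))) :
    |φ s - φ t| ≤ osc r i := by
  set L := Nat.log 2 (i + 1) with hL
  have h1 := h.modulus s t (2 * L + 1 + r)
  rw [pt_succ] at hs ht
  have h2 : |s - t| ≤ step r i := by
    rw [abs_sub_le_iff]
    constructor <;> linarith [hs.1, hs.2, ht.1, ht.2]
  have hi : (i + 1 : ℝ) < 2 ^ (L + 1) := by
    have := Nat.lt_pow_succ_log_self (b := 2) (by norm_num) (i + 1)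
    exact_mod_cast this
  have hL1 : (L + 1 : ℝ) ≤ 2 ^ L := by
    have : L + 1 ≤ 2 ^ L := Nat.succ_le_of_lt Nat.lt_two_pow_self
    exact_mod_cast this
  have h3 : (1 / 2 : ℝ) ^ (2 * L + 1 + r) ≤ step r i := by
    unfold step
    rw [pow_add, mul_comm]
    apply mul_le_mul_of_nonneg_left _ (by positivity)
    rw [one_div_pow]
    apply one_div_le_one_div_of_le (by positivity)
    have e : (2 : ℝ) ^ (2 * L + 1) = 2 ^ (L + 1) * 2 ^ L := by rw [← pow_add]; congr 1; ring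
    rw [e]
    exact mul_le_mul hi.le hL1 (by positivity) (by positivity)
  have h4 : |φ s - φ t| ≤ (2 * L + r + 3) * step r i := by
    refine h1.trans ?_
    push_cast
    have := step_pos r i
    nlinarith [abs_nonneg (s - t), (Nat.cast_nonneg L : (0 : ℝ) ≤ L),
      (Nat.cast_nonneg r : (0 : ℝ) ≤ r)]
  refine h4.trans ?_
  unfold step TakagiCommon.osc
  rw [← hL]
  have h5 : ((2 * L + r + 3) * ((1 / 2) ^ r * (1 / (((i : ℝ) + 1) * (L + 1))))) =
      ((1 / 2 : ℝ) ^ r * (2 * L + r + 3)) / (i + 1) / (L + 1) := by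
    field_simp
  rw [h5, div_le_iff₀ (by positivity), div_mul_eq_mul_div]
  apply div_le_div_of_nonneg_right _ (by positivity)
  rw [mul_assoc]
  apply mul_le_mul_of_nonneg_left _ (by positivity)
  nlinarith [(Nat.cast_nonneg L : (0 : ℝ) ≤ L), (Nat.cast_nonneg r : (0 : ℝ) ≤ r),
    mul_nonneg (Nat.cast_nonneg L : (0 : ℝ) ≤ L) (Nat.cast_nonneg r : (0 : ℝ) ≤ r)]

lemma Good.osc_far {φ : ℝ → ℝ} {a : ℝ} (h : Good φ a) {r i : ℕ} {t : ℝ}
    (ht : t ∈ Icc (pt r i) (pt r (i + 1))) (j : ℕ) :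
    |φ t - φ (pt r (i + 1 + j))| ≤ (j + 1) * TakagiCommon.osc r i := by
  induction j with
  | zero =>
    have := h.osc ht (right_mem_Icc.mpr (pt_mono r (Nat.le_succ i)))
    simpa using this
  | succ j ih =>
    have h1 := h.osc (r := r) (i := i + 1 + j) (left_mem_Icc.mpr (pt_mono r (Nat.le_succ _)))
      (right_mem_Icc.mpr (pt_mono r (Nat.le_succ _)))
    have h2 := osc_anti r (show i ≤ i + 1 + j by omega)
    have h3 : |φ t - φ (pt r (i + 1 + (j + 1)))| ≤ |φ t - φ (pt r (i + 1 + j))| +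
        |φ (pt r (i + 1 + j)) - φ (pt r (i + 1 + j + 1))| := abs_sub_le _ _ _
    push_cast
    linarith

/-- the approximating vector -/
noncomputable def vec (N M : ℕ) (c : ℕ → ℝ) (u p : C₀(ℕ, 𝕜)) : C₀(ℕ, 𝕜) :=
  mk0 (fun k => if k < N then u k else if 0 < N ∧ k / N ≤ M then
    (Real.exp (-(N * (k / N : ℕ) * c (k / N - 1))) : 𝕜) * p (k % N) else 0) (by
    apply tendsto_const_nhds.congr'
    filter_upwards [eventually_ge_atTop (N * (M + 1))] with k hk
    rcases Nat.eq_zero_or_pos N with rfl | hN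
    · simp
    · have h1 : M + 1 ≤ k / N := (Nat.le_div_iff_mul_le hN).mpr (by rw [mul_comm]; exact hk)
      have h2 : ¬ k < N := by
        intro h
        rw [Nat.div_eq_of_lt h] at h1
        omega
      rw [if_neg h2, if_neg (by omega)])

lemma pt_nonneg (r i : ℕ) : 0 ≤ pt r i := by
  rw [← pt_zero r]
  exact pt_mono r (Nat.zero_le i)

lemma vec_sub {φ : ℝ → ℝ} {a : ℝ} (h : Good φ a) (ha : 0 < a) {N : ℕ} (hN : 0 < N) (M r : ℕ)
    {u : C₀(ℕ, 𝕜)} (p : C₀(ℕ, 𝕜)) (hu : ∀ k, N ≤ k → u k = 0) :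
    ‖vec N M (fun l => φ (pt r l)) u p - u‖ ≤ Real.exp (-(N * (a / 2))) * ‖p‖ := by
  rw [norm_le_iff (by positivity)]
  intro k
  rw [ZeroAtInftyContinuousMap.sub_apply, vec, mk0_apply]
  split_ifs with h1 h2
  · rw [sub_self, norm_zero]; positivity
  · rw [hu k (not_lt.mp h1), sub_zero, norm_mul, RCLike.norm_ofReal, abs_of_pos (Real.exp_pos _)]
    apply mul_le_mul _ (apply_le p _) (norm_nonneg _) (Real.exp_pos _).le
    rw [Real.exp_le_exp, neg_le_neg_iff]
    have hj : 1 ≤ k / N := (Nat.le_div_iff_mul_le hN).mpr (by rw [one_mul]; exact not_lt.mp h1)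
    have hj' : (1 : ℝ) ≤ (k / N : ℕ) := by exact_mod_cast hj
    have hc : a ≤ φ (pt r (k / N - 1)) := h.lower _ (pt_nonneg _ _)
    have hN' : (0 : ℝ) < N := by exact_mod_cast hN
    rw [mul_assoc]
    apply mul_le_mul_of_nonneg_left _ hN'.le
    have : a / 2 ≤ 1 * a := by linarith
    exact this.trans (mul_le_mul hj' hc ha.le (by positivity))
  · rw [hu k (not_lt.mp h1), sub_zero, norm_zero]; positivity

lemma vec_approx {φ : ℝ → ℝ} {a : ℝ} (h : Good φ a) (ha : 0 < a) {N M r : ℕ} (hN : 0 < N)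
    (u : C₀(ℕ, 𝕜)) {p : C₀(ℕ, 𝕜)} (hp : ∀ k, N ≤ k → p k = 0)
    (hr : (1 / 2 : ℝ) ^ r * (r + 3) ≤ a / 2) {i : ℕ} (hi : i < M) {t : ℝ}
    (ht : t ∈ Icc (pt r i) (pt r (i + 1))) {η : ℝ}
    (h1 : (Real.exp (N * ((1 / 2) ^ r * (r + 3))) - 1) * ‖p‖ ≤ η)
    (h2 : Real.exp (-(N * (a / 2))) * ‖p‖ ≤ η) :
    ‖(Real.exp (((N * (i + 1) : ℕ) : ℝ) * φ t) : 𝕜) •
      ((B 𝕜) ^ (N * (i + 1))) (vec N M (fun l => φ (pt r l)) u p) - p‖ ≤ η := by
  have hN' : (0 : ℝ) < N := by exact_mod_cast hN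
  have hη : 0 ≤ η := le_trans (by positivity) h2
  rw [norm_le_iff hη]
  intro k
  rw [ZeroAtInftyContinuousMap.sub_apply, ZeroAtInftyContinuousMap.smul_apply, B_pow_apply, vec,
    mk0_apply]
  have hkN : ¬ (k + N * (i + 1) < N) := by
    rw [mul_add, mul_one]
    omega
  have hdiv : (k + N * (i + 1)) / N = k / N + (i + 1) := Nat.add_mul_div_left _ _ hN
  have hmod : (k + N * (i + 1)) % N = k % N := Nat.add_mul_mod_self_left _ _ _
  rw [if_neg hkN, hdiv, hmod]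
  by_cases hk : k < N
  · rw [Nat.div_eq_of_lt hk, Nat.mod_eq_of_lt hk, if_pos ⟨hN, by omega⟩]
    have e1 : 0 + (i + 1) - 1 = i := by omega
    rw [e1, smul_eq_mul, ← mul_assoc, ← RCLike.ofReal_mul, ← Real.exp_add]
    set x : ℝ := ((N * (i + 1) : ℕ) : ℝ) * φ t + -(N * (0 + (i + 1) : ℕ) * φ (pt r i)) with hx
    have hx' : x = N * ((i + 1) * (φ t - φ (pt r i))) := by
      rw [hx]; push_cast; ring
    have hxa : |x| ≤ N * ((1 / 2) ^ r * (r + 3)) := by
      rw [hx', abs_mul, abs_of_pos hN', abs_mul, abs_of_pos (by positivity : (0 : ℝ) < i + 1),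
        ← osc_mul r i]
      apply mul_le_mul_of_nonneg_left _ hN'.le
      apply mul_le_mul_of_nonneg_left _ (by positivity)
      exact h.osc ht (left_mem_Icc.mpr (pt_mono r (Nat.le_succ _)))
    have e2 : (Real.exp x : 𝕜) * p k - p k = ((Real.exp x - 1 : ℝ) : 𝕜) * p k := by
      push_cast; ring
    rw [e2, norm_mul, RCLike.norm_ofReal]
    refine le_trans ?_ h1
    apply mul_le_mul _ (apply_le p k) (norm_nonneg _)
    · have := Real.add_one_le_exp (N * ((1 / 2 : ℝ) ^ r * (r + 3)))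
      have : 0 ≤ (N * ((1 / 2 : ℝ) ^ r * (r + 3))) := by positivity
      linarith
    · rw [abs_le]
      constructor
      · have h3 : Real.exp (-(N * ((1 / 2 : ℝ) ^ r * (r + 3)))) ≤ Real.exp x :=
          Real.exp_le_exp.mpr (abs_le.mp hxa).1
        have h4 : 2 ≤ Real.exp (-(N * ((1 / 2 : ℝ) ^ r * (r + 3)))) +
            Real.exp (N * ((1 / 2 : ℝ) ^ r * (r + 3))) := by
          have := Real.one_le_cosh (N * ((1 / 2 : ℝ) ^ r * (r + 3)))
          rw [Real.cosh_eq] at this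
          linarith
        linarith
      · have := Real.exp_le_exp.mpr (abs_le.mp hxa).2
        linarith
  · rw [hp k (not_lt.mp hk), sub_zero]
    split_ifs with h3
    · rw [smul_eq_mul, ← mul_assoc, ← RCLike.ofReal_mul, ← Real.exp_add, norm_mul,
        RCLike.norm_ofReal, abs_of_pos (Real.exp_pos _)]
      refine le_trans ?_ h2
      apply mul_le_mul _ (apply_le p _) (norm_nonneg _) (Real.exp_pos _).le
      rw [Real.exp_le_exp]
      obtain ⟨q, hq⟩ : ∃ q, k / N = q + 1 :=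
        Nat.exists_eq_succ_of_ne_zero (Nat.div_pos (not_lt.mp hk) hN).ne'
      rw [hq]
      have e3 : q + 1 + (i + 1) - 1 = i + 1 + q := by omega
      rw [e3]
      have h4 := h.osc_far ht q
      have h5 := osc_mul r i
      have h6 := h.lower _ (pt_nonneg r (i + 1 + q))
      set y := φ (pt r (i + 1 + q)) with hy
      have h7 : ((N * (i + 1) : ℕ) : ℝ) * φ t + -(N * (q + 1 + (i + 1) : ℕ) * y) =
          N * ((i + 1) * (φ t - y) - (q + 1) * y) := by
        push_cast; ring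
      rw [h7, ← mul_neg]
      apply mul_le_mul_of_nonneg_left _ hN'.le
      have h8 : (i + 1) * (φ t - y) ≤ (q + 1) * (a / 2) := by
        calc (i + 1) * (φ t - y) ≤ (i + 1) * ((q + 1) * TakagiCommon.osc r i) :=
              mul_le_mul_of_nonneg_left ((le_abs_self _).trans h4) (by positivity)
          _ = (q + 1) * ((i + 1) * TakagiCommon.osc r i) := by ring
          _ ≤ (q + 1) * (a / 2) := by
              rw [h5]
              exact mul_le_mul_of_nonneg_left hr (by positivity)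
      have hq0 : (0 : ℝ) ≤ q := Nat.cast_nonneg q
      nlinarith
    · rw [smul_zero, norm_zero]; exact hη

/-! ### The Baire category argument -/

lemma norm_trunc_le (N : ℕ) (u : C₀(ℕ, 𝕜)) : ‖trunc N u‖ ≤ ‖u‖ := by
  rw [norm_le_iff (norm_nonneg _)]
  intro k
  rw [trunc, mk0_apply]
  split_ifs
  · exact apply_le u k
  · rw [norm_zero]; exact norm_nonneg _

lemma trunc_apply_ge {N k : ℕ} (u : C₀(ℕ, 𝕜)) (h : N ≤ k) : trunc N u k = 0 := by
  rw [trunc, mk0_apply, if_neg (not_lt.mpr h)]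

/-- the iterates, in closed form -/
noncomputable def orb (φ ψ : ℝ → ℝ) (n : ℕ) (w : C₀(ℕ, 𝕜) × C₀(ℕ, 𝕜)) (t : ℝ) :
    C₀(ℕ, 𝕜) × C₀(ℕ, 𝕜) :=
  ((Real.exp (n * φ t) : 𝕜) • (B 𝕜 ^ n) w.1, (Real.exp (n * ψ t) : 𝕜) • (B 𝕜 ^ n) w.2)

lemma orb_continuous {φ ψ : ℝ → ℝ} (hφ : Continuous φ) (hψ : Continuous ψ) (n : ℕ) :
    Continuous fun z : (C₀(ℕ, 𝕜) × C₀(ℕ, 𝕜)) × ℝ => orb φ ψ n z.1 z.2 := by
  unfold orb
  have h1 : Continuous fun z : (C₀(ℕ, 𝕜) × C₀(ℕ, 𝕜)) × ℝ => (Real.exp (n * φ z.2) : 𝕜) :=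
    RCLike.continuous_ofReal.comp (Real.continuous_exp.comp
      (continuous_const.mul (hφ.comp continuous_snd)))
  have h2 : Continuous fun z : (C₀(ℕ, 𝕜) × C₀(ℕ, 𝕜)) × ℝ => (Real.exp (n * ψ z.2) : 𝕜) :=
    RCLike.continuous_ofReal.comp (Real.continuous_exp.comp
      (continuous_const.mul (hψ.comp continuous_snd)))
  exact (h1.smul ((B 𝕜 ^ n).continuous.comp (continuous_fst.comp continuous_fst))).prodMk
    (h2.smul ((B 𝕜 ^ n).continuous.comp (continuous_snd.comp continuous_fst)))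

lemma exists_cell (r : ℕ) : ∃ M, ∀ t ∈ Icc (0 : ℝ) 1, ∃ i < M, t ∈ Icc (pt r i) (pt r (i + 1)) := by
  obtain ⟨M, hM⟩ := ((pt_tendsto r).eventually (eventually_gt_atTop (1 : ℝ))).exists
  refine ⟨M, fun t ht => ?_⟩
  classical
  have hex : ∃ j, t < pt r (j + 1) :=
    ⟨M, (ht.2.trans_lt hM).trans_le (pt_mono r (Nat.le_succ M))⟩
  have h1 := Nat.find_spec hex
  have h2 : pt r (Nat.find hex) ≤ t := by
    rcases Nat.eq_zero_or_pos (Nat.find hex) with h | h
    · rw [h, pt_zero]; exact ht.1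
    · obtain ⟨j, hj⟩ := Nat.exists_eq_succ_of_ne_zero h.ne'
      have h3 := Nat.find_min hex (m := j) (by omega)
      rw [hj]
      exact not_lt.mp h3
  refine ⟨Nat.find hex, ?_, h2, h1.le⟩
  by_contra hlt
  have h3 := pt_mono r (not_lt.mp hlt)
  linarith [ht.2]

lemma tendsto_scale : Tendsto (fun r : ℕ => (1 / 2 : ℝ) ^ r * (r + 3)) atTop (𝓝 0) := by
  have h1 : Tendsto (fun r : ℕ => (r : ℝ) ^ 1 * (1 / 2 : ℝ) ^ r) atTop (𝓝 0) :=
    tendsto_pow_const_mul_const_pow_of_lt_one 1 (by norm_num) (by norm_num)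
  have h2 : Tendsto (fun r : ℕ => (1 / 2 : ℝ) ^ r) atTop (𝓝 0) :=
    tendsto_pow_atTop_nhds_zero_of_lt_one (by norm_num) (by norm_num)
  have h3 := h1.add (h2.mul_const 3)
  rw [zero_mul, add_zero] at h3
  refine h3.congr fun r => ?_
  ring

lemma density {φ ψ : ℝ → ℝ} {a : ℝ} (ha : 0 < a) (hφ : Good φ a) (hψ : Good ψ a)
    (w₀ d : C₀(ℕ, 𝕜) × C₀(ℕ, 𝕜)) {ε : ℝ} (hε : 0 < ε) :
    ∃ w : C₀(ℕ, 𝕜) × C₀(ℕ, 𝕜), dist w w₀ < ε ∧
      ∀ t ∈ Icc (0 : ℝ) 1, ∃ n : ℕ, dist (orb φ ψ n w t) d < ε := by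
  have hε3 : 0 < ε / 3 := by positivity
  obtain ⟨n1, h1⟩ := exists_trunc w₀.1 hε3
  obtain ⟨n2, h2⟩ := exists_trunc w₀.2 hε3
  obtain ⟨n3, h3⟩ := exists_trunc d.1 hε3
  obtain ⟨n4, h4⟩ := exists_trunc d.2 hε3
  set P := ‖d.1‖ + ‖d.2‖ with hP
  have hP0 : 0 ≤ P := by positivity
  have hd1 : ∀ N, ‖trunc N d.1‖ ≤ P := fun N =>
    (norm_trunc_le N d.1).trans (by rw [hP]; linarith [norm_nonneg d.2])
  have hd2 : ∀ N, ‖trunc N d.2‖ ≤ P := fun N =>
    (norm_trunc_le N d.2).trans (by rw [hP]; linarith [norm_nonneg d.1])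
  have hlim : Tendsto (fun N : ℕ => Real.exp (-(N * (a / 2))) * P) atTop (𝓝 0) := by
    have e1 : Tendsto (fun N : ℕ => (N : ℝ) * (a / 2)) atTop atTop :=
      tendsto_natCast_atTop_atTop.atTop_mul_const (by positivity)
    have e2 := (Real.tendsto_exp_neg_atTop_nhds_zero.comp e1).mul_const P
    rw [zero_mul] at e2
    exact e2
  have hev := (hlim.eventually (gt_mem_nhds hε3)).and (eventually_ge_atTop (n1 + n2 + n3 + n4 + 1))
  obtain ⟨N, hN1, hN2⟩ := hev.exists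
  have hN : 0 < N := by omega
  have hlim2 : Tendsto (fun r : ℕ => (Real.exp (N * ((1 / 2 : ℝ) ^ r * (r + 3))) - 1) * P) atTop
      (𝓝 0) := by
    have e1 := ((Real.continuous_exp.tendsto _).comp (tendsto_scale.const_mul (N : ℝ)))
    rw [mul_zero, Real.exp_zero] at e1
    have e2 := (e1.sub_const 1).mul_const P
    rw [sub_self, zero_mul] at e2
    exact e2
  obtain ⟨r, hr1, hr2⟩ := ((hlim2.eventually (gt_mem_nhds hε3)).and
    (tendsto_scale.eventually (gt_mem_nhds (half_pos ha)))).exists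
  obtain ⟨M, hM⟩ := exists_cell r
  have hexp : 0 ≤ Real.exp (N * ((1 / 2 : ℝ) ^ r * (r + 3))) - 1 := by
    have := Real.add_one_le_exp (N * ((1 / 2 : ℝ) ^ r * (r + 3)))
    have : 0 ≤ (N * ((1 / 2 : ℝ) ^ r * (r + 3))) := by positivity
    linarith
  have c1 : ∀ p : C₀(ℕ, 𝕜), ‖p‖ ≤ P →
      (Real.exp (N * ((1 / 2 : ℝ) ^ r * (r + 3))) - 1) * ‖p‖ ≤ ε / 3 := fun p hp =>
    (mul_le_mul_of_nonneg_left hp hexp).trans hr1.le
  have c2 : ∀ p : C₀(ℕ, 𝕜), ‖p‖ ≤ P → Real.exp (-(N * (a / 2))) * ‖p‖ ≤ ε / 3 := fun p hp =>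
    (mul_le_mul_of_nonneg_left hp (Real.exp_pos _).le).trans hN1.le
  refine ⟨(vec N M (fun l => φ (pt r l)) (trunc N w₀.1) (trunc N d.1),
    vec N M (fun l => ψ (pt r l)) (trunc N w₀.2) (trunc N d.2)), ?_, ?_⟩
  · rw [Prod.dist_eq, max_lt_iff]
    constructor
    · have e1 := vec_sub hφ ha hN M r (u := trunc N w₀.1) (trunc N d.1)
        (fun k hk => trunc_apply_ge _ hk)
      have e2 := c2 _ (hd1 N)
      have e3 := h1 N (by omega)
      rw [← dist_eq_norm] at e1 e3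
      have := dist_triangle (vec N M (fun l => φ (pt r l)) (trunc N w₀.1) (trunc N d.1))
        (trunc N w₀.1) w₀.1
      show dist (vec N M (fun l => φ (pt r l)) (trunc N w₀.1) (trunc N d.1)) w₀.1 < ε
      linarith
    · have e1 := vec_sub hψ ha hN M r (u := trunc N w₀.2) (trunc N d.2)
        (fun k hk => trunc_apply_ge _ hk)
      have e2 := c2 _ (hd2 N)
      have e3 := h2 N (by omega)
      rw [← dist_eq_norm] at e1 e3
      have := dist_triangle (vec N M (fun l => ψ (pt r l)) (trunc N w₀.2) (trunc N d.2))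
        (trunc N w₀.2) w₀.2
      show dist (vec N M (fun l => ψ (pt r l)) (trunc N w₀.2) (trunc N d.2)) w₀.2 < ε
      linarith
  · intro t ht
    obtain ⟨i, hi, hti⟩ := hM t ht
    refine ⟨N * (i + 1), ?_⟩
    rw [Prod.dist_eq, max_lt_iff]
    constructor
    · have e1 := vec_approx hφ ha hN (trunc N w₀.1) (p := trunc N d.1)
        (fun k hk => trunc_apply_ge _ hk) hr2.le hi hti (c1 _ (hd1 N)) (c2 _ (hd1 N))
      have e3 := h3 N (by omega)
      rw [← dist_eq_norm] at e1 e3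
      refine (dist_triangle _ (trunc N d.1) _).trans_lt ?_
      have e4 : dist (orb φ ψ (N * (i + 1)) (vec N M (fun l => φ (pt r l)) (trunc N w₀.1)
        (trunc N d.1), vec N M (fun l => ψ (pt r l)) (trunc N w₀.2) (trunc N d.2)) t).1
          (trunc N d.1) ≤ ε / 3 := e1
      linarith
    · have e1 := vec_approx hψ ha hN (trunc N w₀.2) (p := trunc N d.2)
        (fun k hk => trunc_apply_ge _ hk) hr2.le hi hti (c1 _ (hd2 N)) (c2 _ (hd2 N))
      have e3 := h4 N (by omega)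
      rw [← dist_eq_norm] at e1 e3
      refine (dist_triangle _ (trunc N d.2) _).trans_lt ?_
      have e4 : dist (orb φ ψ (N * (i + 1)) (vec N M (fun l => φ (pt r l)) (trunc N w₀.1)
        (trunc N d.1), vec N M (fun l => ψ (pt r l)) (trunc N w₀.2) (trunc N d.2)) t).2
          (trunc N d.2) ≤ ε / 3 := e1
      linarith

theorem common {φ ψ : ℝ → ℝ} {a : ℝ} (ha : 0 < a) (hφ : Good φ a) (hψ : Good ψ a) :
    ∃ v : C₀(ℕ, 𝕜) × C₀(ℕ, 𝕜), ∀ t ∈ Icc (0 : ℝ) 1,
      Dense (range fun n : ℕ => orb φ ψ n v t) := by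
  set D := TopologicalSpace.denseSeq (C₀(ℕ, 𝕜) × C₀(ℕ, 𝕜)) with hD
  set E : ℕ × ℕ → Set (C₀(ℕ, 𝕜) × C₀(ℕ, 𝕜)) := fun km =>
    {w | ∀ t ∈ Icc (0 : ℝ) 1, ∃ n : ℕ, dist (orb φ ψ n w t) (D km.1) < 1 / (km.2 + 1)} with hE
  have hopen : ∀ km, IsOpen (E km) := by
    intro km
    rw [isOpen_iff_mem_nhds]
    intro w hw
    refine isCompact_Icc.eventually_forall_of_forall_eventually
      (P := fun w t => ∃ n : ℕ, dist (orb φ ψ n w t) (D km.1) < 1 / (km.2 + 1)) ?_
    intro t ht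
    obtain ⟨n, hn⟩ := hw t ht
    have hc := (orb_continuous (𝕜 := 𝕜) hφ.cont hψ.cont n).dist
      (continuous_const (y := D km.1))
    filter_upwards [hc.continuousAt.eventually (gt_mem_nhds hn)] with z hz
    exact ⟨n, hz⟩
  have hdense : ∀ km, Dense (E km) := by
    intro km
    rw [Metric.dense_iff]
    intro w₀ ε hε
    obtain ⟨w, hw1, hw2⟩ := density ha hφ hψ w₀ (D km.1)
      (ε := min ε (1 / (km.2 + 1))) (lt_min hε (by positivity))
    refine ⟨w, Metric.mem_ball.mpr (hw1.trans_le (min_le_left _ _)), fun t ht => ?_⟩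
    obtain ⟨n, hn⟩ := hw2 t ht
    exact ⟨n, hn.trans_le (min_le_right _ _)⟩
  obtain ⟨v, hv⟩ := (dense_iInter_of_isOpen hopen hdense).nonempty
  refine ⟨v, fun t ht => ?_⟩
  rw [Metric.dense_iff]
  intro x ε hε
  obtain ⟨m, hm⟩ := exists_nat_one_div_lt (half_pos hε)
  obtain ⟨k, hk⟩ := (TopologicalSpace.denseRange_denseSeq
    (C₀(ℕ, 𝕜) × C₀(ℕ, 𝕜))).exists_dist_lt x (half_pos hε)
  obtain ⟨n, hn⟩ := mem_iInter.mp hv (k, m) t ht
  refine ⟨orb φ ψ n v t, ?_, n, rfl⟩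
  rw [Metric.mem_ball]
  have h1 := dist_triangle (orb φ ψ n v t) (D k) x
  rw [dist_comm (D k) x] at h1
  have h2 : dist (orb φ ψ n v t) (D k) < 1 / ((m : ℝ) + 1) := hn
  linarith

/-! ### The statement -/

/-- `v` is a hypercyclic vector of `T`: its orbit `{T ^ n v : n ≥ 0}` is dense. -/
def IsHypercyclicVector {X : Type*} [AddCommMonoid X] [Module 𝕜 X] [TopologicalSpace X]
    (T : X →L[𝕜] X) (v : X) : Prop :=
  Dense (range fun n : ℕ => (T ^ n) v)

/-- The operator `e ^ x B × e ^ y B` on `c₀ × c₀`. -/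
noncomputable def T (𝕜 : Type*) [RCLike 𝕜] (x y : ℝ) :
    (C₀(ℕ, 𝕜) × C₀(ℕ, 𝕜)) →L[𝕜] (C₀(ℕ, 𝕜) × C₀(ℕ, 𝕜)) :=
  ((Real.exp x : 𝕜) • B 𝕜).prodMap ((Real.exp y : 𝕜) • B 𝕜)

/-- The curve `Γ_{a, b} = {(a + t, b + takagi t) : t ∈ [0, 1]}`. -/
noncomputable def Γ (a b : ℝ) : Set (ℝ × ℝ) := (fun t => (a + t, b + takagi t)) '' Icc (0 : ℝ) 1

lemma T_pow_apply (x y : ℝ) (n : ℕ) (w : C₀(ℕ, 𝕜) × C₀(ℕ, 𝕜)) :
    (T 𝕜 x y ^ n) w = ((Real.exp (n * x) : 𝕜) • (B 𝕜 ^ n) w.1,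
      (Real.exp (n * y) : 𝕜) • (B 𝕜 ^ n) w.2) := by
  induction n generalizing w with
  | zero => simp
  | succ n ih =>
    rw [pow_succ, mul_apply_eq_comp, ih]
    have e1 : (T 𝕜 x y w).1 = (Real.exp x : 𝕜) • B 𝕜 w.1 := rfl
    have e2 : (T 𝕜 x y w).2 = (Real.exp y : 𝕜) • B 𝕜 w.2 := rfl
    rw [e1, e2, map_smul, map_smul, smul_smul, smul_smul, pow_succ, mul_apply_eq_comp,
      mul_apply_eq_comp, ← RCLike.ofReal_mul, ← RCLike.ofReal_mul, ← Real.exp_add,
      ← Real.exp_add]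
    congr 3 <;> push_cast <;> ring_nf

/-- For all `a, b > 0`, the family `(e ^ x B × e ^ y B)` with `(x, y)` on the translate `Γ_{a, b}`
of the graph of the Takagi function has a common hypercyclic vector on `c₀ × c₀` (real or
complex). -/
theorem result {𝕜 : Type*} [RCLike 𝕜] (a b : ℝ) (ha : 0 < a) (hb : 0 < b) :
    ∃ v : C₀(ℕ, 𝕜) × C₀(ℕ, 𝕜), ∀ z ∈ Γ a b, IsHypercyclicVector (T 𝕜 z.1 z.2) v := by
  have hφ : Good (fun t => a + t) (min a b) := by
    refine ⟨continuous_const.add continuous_id, fun t ht => ?_, fun s t m => ?_⟩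
    · exact (min_le_left _ _).trans (by linarith)
    · have e1 : a + s - (a + t) = s - t := by ring
      rw [e1]
      have := mul_nonneg (Nat.cast_nonneg m : (0 : ℝ) ≤ m) (abs_nonneg (s - t))
      have : (0 : ℝ) ≤ (1 / 2) ^ m := by positivity
      linarith
  have hψ : Good (fun t => b + takagi t) (min a b) := by
    refine ⟨continuous_const.add takagi_continuous, fun t _ => ?_, fun s t m => ?_⟩
    · exact (min_le_right _ _).trans (by linarith [takagi_nonneg t])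
    · have e1 : b + takagi s - (b + takagi t) = takagi s - takagi t := by ring
      rw [e1]
      have := takagi_modulus s t m
      have := abs_nonneg (s - t)
      linarith
  obtain ⟨v, hv⟩ := common (𝕜 := 𝕜) (lt_min ha hb) hφ hψ
  refine ⟨v, ?_⟩
  rintro z ⟨t, ht, rfl⟩
  have h := hv t ht
  unfold IsHypercyclicVector
  have e : (fun n : ℕ => (T 𝕜 (a + t) (b + takagi t) ^ n) v) =
      fun n : ℕ => orb (fun t => a + t) (fun t => b + takagi t) n v t := by
    funext n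
    rw [T_pow_apply]
    rfl
  show Dense (range fun n : ℕ => (T 𝕜 (a + t) (b + takagi t) ^ n) v)
  rw [e]
  exact h

end Pool.Agent.Results.MP_c0f49b_an.TakagiCommon
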